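import Pool.Agent.Helper35.HC.StC

set_option autoImplicit false

/-!
Project HC, module DIJ: jets of `D_i = ∂_i w - Σ V_m u_im` at the centre of a graph chart.
-/

namespace Helper40.HC

open Helper35.HC Helper35.HSF Helper35.MS Helper35.PI Helper35.PI2 Helper32.CL
open scoped ContDiff Manifold Topology ENNReal BigOperators
open MeasureTheory Set Filter

variable {n N : ℕ}

private theorem jg_smooth {φ : EE n × ℝ → EE N} {z : EE n × ℝ} (h : ContDiffAt ℝ ∞ φ z)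
    (k : Fin n) : ContDiffAt ℝ ∞ (fun z' => jg φ z' k) z :=
  (h.fderiv_right (m := ∞) (by simp)).clm_apply contDiffAt_const

private theorem jgg_smooth {φ : EE n × ℝ → EE N} {z : EE n × ℝ} (h : ContDiffAt ℝ ∞ φ z)
    (i k : Fin n) : ContDiffAt ℝ ∞ (fun z' => jgg φ z' i k) z :=
  jg_smooth (jg_smooth h k) i

private theorem two_le {V : Type*} [NormedAddCommGroup V] [NormedSpace ℝ V]
    {φ : EE n × ℝ → V} {z : EE n × ℝ} (h : ContDiffAt ℝ ∞ φ z) : ContDiffAt ℝ 2 φ z :=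
  h.of_le (WithTop.coe_le_coe.2 le_top)

/-- the heat operator of `φ • ψ` -/
private theorem jh_smul (hJA : StJA) (hJB : StJB) {φ : EE n × ℝ → ℝ} {ψ : EE n × ℝ → EE N}
    {z : EE n × ℝ} (hφ : ContDiffAt ℝ ∞ φ z) (hψ : ContDiffAt ℝ ∞ ψ z) :
    jh (fun z' => φ z' • ψ z') z
      = jh φ z • ψ z + φ z • jh ψ z - (2 : ℝ) • ∑ k, jg φ z k • jg ψ z k := by
  obtain ⟨-, JBi⟩ := hJB n N z
  obtain ⟨JBm, -⟩ := hJB n N z
  obtain ⟨-, JAc, -, -, -⟩ := hJA n (EE N) z
  refine ext_inner_right ℝ fun c => ?_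
  have hc : ContDiffAt ℝ 2 (fun _ : EE n × ℝ => c) z := contDiffAt_const
  have h1 := (JBi (fun z' => φ z' • ψ z') (fun _ => c) (two_le (hφ.smul hψ)) hc).2
  rw [(JAc c).2] at h1
  simp only [(JAc c).1, inner_zero_right, Finset.sum_const_zero, mul_zero, sub_zero,
    add_zero] at h1
  have h2 := JBi ψ (fun _ => c) (two_le hψ) hc
  rw [(JAc c).2] at h2
  simp only [(JAc c).1, inner_zero_right, Finset.sum_const_zero, mul_zero, sub_zero,
    add_zero] at h2
  have h3 := (JBm φ (fun z' => (inner ℝ (ψ z') c : ℝ)) (two_le hφ)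
    (two_le (hψ.inner ℝ contDiffAt_const))).2
  have e : (fun z' => (inner ℝ (φ z' • ψ z') c : ℝ)) = fun z' => φ z' * (inner ℝ (ψ z') c : ℝ) := by
    funext z'
    rw [real_inner_smul_left]
  rw [← h1, e, h3, h2.2]
  simp only [h2.1]
  rw [inner_sub_left, inner_add_left, real_inner_smul_left, real_inner_smul_left,
    real_inner_smul_left, sum_inner]
  simp only [real_inner_smul_left]

theorem hDIJ (hVMJ : StVMJ) (hJHW : StJHW) (hG2 : StG2) (hJA : StJA) (hJB : StJB) : StDIJ := by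
  intro n N x₀ L u t₀ hu A T hA hT i
  obtain ⟨-, -, -, hw⟩ := hJHW n N x₀ L u t₀ hu A T hA hT
  obtain ⟨ws, wv, wp, wh⟩ := hw i
  have hV := hVMJ n N x₀ L u t₀ hu A T hA hT
  have g2 := hG2 n N x₀ L u t₀ hu
  have hs : ∀ m, ContDiffAt ℝ ∞ (fun z => jgg u z i m) ((0 : EE n), t₀) :=
    fun m => jgg_smooth hu.smooth i m
  have hp : ∀ m, ContDiffAt ℝ ∞ (fun z => Vg x₀ L u m z • jgg u z i m) ((0 : EE n), t₀) :=
    fun m => (hV m).1.smul (hs m)
  have hsum : ContDiffAt ℝ ∞ (fun z => ∑ m, Vg x₀ L u m z • jgg u z i m) ((0 : EE n), t₀) :=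
    ContDiffAt.sum fun m _ => hp m
  obtain ⟨-, -, JAa, -, JAs⟩ := hJA n (EE N) ((0 : EE n), t₀)
  refine ⟨ws.sub hsum, ?_, ?_, ?_⟩
  · show jg (jt u) (0, t₀) i - ∑ m, Vg x₀ L u m (0, t₀) • jgg u (0, t₀) i m = _
    rw [wv, Finset.sum_eq_zero fun m _ => by rw [(hV m).2.1, zero_smul], sub_zero]
  · filter_upwards [wp, g2] with z h1 h2 v
    show (inner ℝ (jg (jt u) z i - ∑ m, Vg x₀ L u m z • jgg u z i m) (L v) : ℝ) = 0
    rw [inner_sub_left, h1 v, sum_inner,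
      Finset.sum_eq_zero fun m _ => by rw [real_inner_smul_left, (h2.2.2.2.1 i m v).2, mul_zero],
      sub_zero]
  · have e1 : jh (Dg x₀ L u i) (0, t₀) = jh (fun z => jg (jt u) z i) (0, t₀)
        - jh (fun z => ∑ m, Vg x₀ L u m z • jgg u z i m) (0, t₀) :=
      (JAa (fun z => jg (jt u) z i) (fun z => ∑ m, Vg x₀ L u m z • jgg u z i m)
        (two_le ws) (two_le hsum)).2.2.2
    have e2 := (JAs n (fun m z => Vg x₀ L u m z • jgg u z i m) (fun m => two_le (hp m))).2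
    have e3 : ∀ m, jh (fun z => Vg x₀ L u m z • jgg u z i m) (0, t₀)
        = (-2 * ∑ k, (inner ℝ (et T k) (A m k) : ℝ)) • A i m
          - (2 : ℝ) • ∑ l, (inner ℝ (Hv A) (A m l) : ℝ) • T l i m := by
      intro m
      rw [jh_smul hJA hJB (hV m).1 (hs m), (hV m).2.1, zero_smul, add_zero, (hV m).2.2.2, hA, hT]
      simp only [(hV m).2.2.1, hA]
      rfl
    rw [e1, wh, e2, Finset.sum_congr rfl fun m _ => e3 m, Finset.sum_sub_distrib, Finset.smul_sum,
      Finset.smul_sum]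
    have e4 : ∀ m, (-2 * ∑ k, (inner ℝ (et T k) (A m k) : ℝ)) • A i m
        = -((2 : ℝ) • ((∑ k, (inner ℝ (et T k) (A m k) : ℝ)) • A i m)) := by
      intro m
      rw [neg_mul, neg_smul, smul_smul]
    rw [Finset.sum_congr rfl fun m _ => e4 m, Finset.sum_neg_distrib, Finset.smul_sum]
    abel

end Helper40.HC
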